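import Pool.Agent.W4helper48.JN.Stm

/-!
# Project JN, piece LOW: polytopal graphs in dimensions 0, 1, 2 and simplices
-/

set_option autoImplicit false

namespace Pool.Agent.W4helper65.JN

open Set Pool.Agent.W4helper48.JN

section aux

variable {d : ℕ} {U : Type} {H : SimpleGraph U} {P : Set (EuclideanSpace ℝ (Fin d))}
  {p : U → EuclideanSpace ℝ (Fin d)}

theorem isCompact_of (h : IsGraphOf d H P p) : IsCompact P := by
  obtain ⟨⟨S, hS⟩, _⟩ := h
  rw [hS]
  exact S.finite_toSet.isCompact_convexHull ℝ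

theorem convex_of (h : IsGraphOf d H P p) : Convex ℝ P := by
  obtain ⟨⟨S, hS⟩, _⟩ := h
  rw [hS]
  exact convex_convexHull ℝ _

theorem hull_eq [Finite U] (h : IsGraphOf d H P p) : P = convexHull ℝ (range p) := by
  have h1 := closure_convexHull_extremePoints (isCompact_of h) (convex_of h)
  rw [← h.2.2.2.1, ((finite_range p).isClosed_convexHull ℝ).closure_eq] at h1
  exact h1.symm

/-- A linear functional constant on a set with interior points is zero. -/
theorem lin_zero (hP : (interior P).Nonempty) (g : EuclideanSpace ℝ (Fin d) →ₗ[ℝ] ℝ) (c : ℝ)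
    (h : ∀ x ∈ P, g x = c) : g = 0 := by
  obtain ⟨x0, hx0⟩ := hP
  apply LinearMap.ext
  intro y
  have hcont : Continuous (fun t : ℝ => x0 + t • y) := by fun_prop
  have h1 : ∀ᶠ t in nhds (0 : ℝ), x0 + t • y ∈ P := by
    apply hcont.continuousAt.eventually
    simpa using mem_interior_iff_mem_nhds.1 hx0
  obtain ⟨ε, hε, h2⟩ := Metric.eventually_nhds_iff.1 h1
  have h3 := h _ (h2 (y := ε / 2) (by
    rw [Real.dist_eq, sub_zero, abs_of_pos (by positivity)]
    linarith))
  have h4 := h _ (interior_subset hx0)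
  rw [map_add, map_smul, h4, smul_eq_mul] at h3
  have h5 : ε / 2 * g y = 0 := by linarith
  rcases mul_eq_zero.1 h5 with h6 | h6
  · linarith
  · simpa using h6

theorem lin_zero' [Finite U] (h : IsGraphOf d H P p) (g : EuclideanSpace ℝ (Fin d) →ₗ[ℝ] ℝ)
    (c : ℝ) (hg : ∀ u, g (p u) = c) : g = 0 := by
  apply lin_zero h.2.1 g c
  have h1 : convexHull ℝ (range p) ⊆ {x | g x = c} := by
    apply convexHull_min
    · rintro _ ⟨u, rfl⟩
      exact hg u
    · exact convex_hyperplane g.isLinear c
  rw [hull_eq h]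
  exact fun x hx => h1 hx

theorem mem_of (h : IsGraphOf d H P p) (u : U) : p u ∈ P := by
  have h1 : p u ∈ P.extremePoints ℝ := by
    rw [← h.2.2.2.1]
    exact mem_range_self u
  exact h1.1

/-- An edge gives a linear functional. -/
theorem edge_fun (h : IsGraphOf d H P p) {w u : U} (hadj : H.Adj w u) :
    ∃ l : EuclideanSpace ℝ (Fin d) →L[ℝ] ℝ, l (p u - p w) = 0 ∧
      ∀ v, v ≠ w → v ≠ u → l (p v - p w) < 0 := by
  obtain ⟨hne, hexp⟩ := (h.2.2.2.2 w u).1 hadj
  obtain ⟨l, hl⟩ := hexp ⟨p w, left_mem_segment ℝ _ _⟩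
  have hw := left_mem_segment ℝ (p w) (p u)
  have hu := right_mem_segment ℝ (p w) (p u)
  rw [hl] at hw hu
  refine ⟨l, ?_, ?_⟩
  · rw [map_sub]
    have := hw.2 _ hu.1
    have := hu.2 _ hw.1
    linarith
  · intro v hvw hvu
    rw [map_sub]
    have h1 := hw.2 _ (mem_of h v)
    rcases lt_or_eq_of_le h1 with h2 | h2
    · linarith
    · exfalso
      have hmem : p v ∈ segment ℝ (p w) (p u) := by
        rw [hl]
        refine ⟨mem_of h v, fun y hy => ?_⟩
        rw [h2]
        exact hw.2 y hy
      have h3 : p v ∈ P.extremePoints ℝ := by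
        rw [← h.2.2.2.1]
        exact mem_range_self v
      rcases (mem_extremePoints_iff_forall_segment.1 h3).2 _ (mem_of h w) _ (mem_of h u) hmem with
        h4 | h4
      · exact hvw (h.2.2.1 h4.symm)
      · exact hvu (h.2.2.1 h4.symm)

end aux

/-! ### Dimension 0 -/

theorem low0 {U : Type} (H : SimpleGraph U) (h : IsPolytopal 0 H) : Subsingleton U := by
  obtain ⟨P, p, h⟩ := h
  exact ⟨fun a b => h.2.2.1 (Subsingleton.elim _ _)⟩

/-! ### Dimension 1 -/

theorem low1 {U : Type} [Fintype U] (H : SimpleGraph U) (h : IsPolytopal 1 H) :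
    Fintype.card U = 2 := by
  obtain ⟨P, p, h⟩ := h
  have hcont : Continuous (fun x : EuclideanSpace ℝ (Fin 1) => x 0) := by fun_prop
  have hinj : ∀ x y : EuclideanSpace ℝ (Fin 1), x 0 = y 0 → x = y := by
    intro x y hxy
    ext i
    rw [Subsingleton.elim i 0]
    exact hxy
  have hne : P.Nonempty := h.2.1.mono interior_subset
  obtain ⟨a, ha, hmin⟩ := (isCompact_of h).exists_isMinOn hne hcont.continuousOn
  obtain ⟨b, hb, hmax⟩ := (isCompact_of h).exists_isMaxOn hne hcont.continuousOn
  have hmin' : ∀ x ∈ P, a 0 ≤ x 0 := fun x hx => hmin hx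
  have hmax' : ∀ x ∈ P, x 0 ≤ b 0 := fun x hx => hmax hx
  have hab : a 0 < b 0 := by
    rcases lt_or_eq_of_le (hmin' b hb) with h1 | h1
    · exact h1
    · exfalso
      have h2 := lin_zero h.2.1 (EuclideanSpace.proj (𝕜 := ℝ) (0 : Fin 1)).toLinearMap (a 0)
        (fun x hx => le_antisymm (by simpa [h1] using hmax' x hx) (by simpa using hmin' x hx))
      have h3 := congrArg (fun g => g (EuclideanSpace.single (0 : Fin 1) (1 : ℝ))) h2
      simp at h3
  have hext : P.extremePoints ℝ = {a, b} := by
    apply Subset.antisymm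
    · intro x hx
      have h1 := hmin' x hx.1
      have h2 := hmax' x hx.1
      have hseg : x ∈ segment ℝ a b := by
        refine ⟨(b 0 - x 0) / (b 0 - a 0), (x 0 - a 0) / (b 0 - a 0),
          div_nonneg (by linarith) (by linarith), div_nonneg (by linarith) (by linarith), ?_, ?_⟩
        · rw [← add_div, div_eq_one_iff_eq (by linarith)]
          ring
        · apply hinj
          have h3 : b 0 - a 0 ≠ 0 := by linarith
          simp only [PiLp.add_apply, PiLp.smul_apply, smul_eq_mul]
          field_simp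
          ring
      rcases (mem_extremePoints_iff_forall_segment.1 hx).2 _ ha _ hb hseg with h4 | h4
      · left; exact h4.symm
      · right; exact h4.symm
    · rintro x (rfl | rfl)
      · refine mem_extremePoints_iff_left.2 ⟨ha, fun y hy z hz hx => ?_⟩
        obtain ⟨s, t, hs, ht, hst, hx⟩ := hx
        have h1 := congrArg (fun v : EuclideanSpace ℝ (Fin 1) => v 0) hx
        simp only [PiLp.add_apply, PiLp.smul_apply, smul_eq_mul] at h1
        apply hinj
        have h2 := hmin' y hy
        have h3 := hmin' z hz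
        have h4 : s * (y 0 - x 0) + t * (z 0 - x 0) = 0 := by
          have : x 0 = (s + t) * x 0 := by rw [hst, one_mul]
          linear_combination h1 + this
        have h5 : s * (y 0 - x 0) = 0 := by
          nlinarith [mul_nonneg hs.le (sub_nonneg.2 h2), mul_nonneg ht.le (sub_nonneg.2 h3)]
        rcases mul_eq_zero.1 h5 with h6 | h6
        · linarith
        · linarith
      · refine mem_extremePoints_iff_left.2 ⟨hb, fun y hy z hz hx => ?_⟩
        obtain ⟨s, t, hs, ht, hst, hx⟩ := hx
        have h1 := congrArg (fun v : EuclideanSpace ℝ (Fin 1) => v 0) hx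
        simp only [PiLp.add_apply, PiLp.smul_apply, smul_eq_mul] at h1
        apply hinj
        have h2 := hmax' y hy
        have h3 := hmax' z hz
        have h4 : s * (x 0 - y 0) + t * (x 0 - z 0) = 0 := by
          have : x 0 = (s + t) * x 0 := by rw [hst, one_mul]
          linear_combination -h1 - this
        have h5 : s * (x 0 - y 0) = 0 := by
          nlinarith [mul_nonneg hs.le (sub_nonneg.2 h2), mul_nonneg ht.le (sub_nonneg.2 h3)]
        rcases mul_eq_zero.1 h5 with h6 | h6
        · linarith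
        · linarith
  have hane : a ≠ b := by
    rintro rfl
    exact lt_irrefl _ hab
  have hcard : (range p).ncard = 2 := by
    rw [h.2.2.2.1, hext]
    exact Set.ncard_pair hane
  rw [← Set.image_univ, Set.ncard_image_of_injective _ h.2.2.1, Set.ncard_univ,
    Nat.card_eq_fintype_card] at hcard
  exact hcard

/-! ### Dimension 2 -/

theorem exists_ker (v : EuclideanSpace ℝ (Fin 2)) :
    ∃ g : EuclideanSpace ℝ (Fin 2) →ₗ[ℝ] ℝ, g ≠ 0 ∧ g v = 0 := by
  have h1 : Submodule.span ℝ {v} < ⊤ := by
    rw [lt_top_iff_ne_top]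
    intro h
    have h2 := finrank_span_le_card (R := ℝ) ({v} : Set (EuclideanSpace ℝ (Fin 2)))
    rw [h] at h2
    simp at h2
  obtain ⟨g, hg0, hg⟩ := Submodule.exists_le_ker_of_lt_top _ h1
  exact ⟨g, hg0, hg (Submodule.mem_span_singleton_self v)⟩

theorem no_line {U : Type} [Finite U] {H : SimpleGraph U} {P : Set (EuclideanSpace ℝ (Fin 2))}
    {p : U → EuclideanSpace ℝ (Fin 2)} (h : IsGraphOf 2 H P p) (u v : U) :
    ∃ g : EuclideanSpace ℝ (Fin 2) →ₗ[ℝ] ℝ, g (p u) = g (p v) ∧ ∃ x, g (p v) < g (p x) := by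
  obtain ⟨g, hg0, hg⟩ := exists_ker (p u - p v)
  rw [map_sub, sub_eq_zero] at hg
  have h1 : ∃ x, g (p x) ≠ g (p v) := by
    by_contra hcon
    push Not at hcon
    exact hg0 (lin_zero' h g _ hcon)
  obtain ⟨x, hx⟩ := h1
  rcases lt_or_gt_of_ne hx with h2 | h2
  · refine ⟨-g, ?_, x, ?_⟩
    · simp [hg]
    · simpa using h2
  · exact ⟨g, hg, x, h2⟩

theorem low2 {U : Type} [Fintype U] (H : SimpleGraph U) (w : U) (hw : ∀ u, u ≠ w → H.Adj w u)
    (h : IsPolytopal 2 H) : Fintype.card U = 3 ∧ H = ⊤ := by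
  classical
  obtain ⟨P, p, h⟩ := h
  have hlow : 2 < Fintype.card U := by
    obtain ⟨g, hg, x, hx⟩ := no_line h w w
    have hxw : x ≠ w := by
      rintro rfl
      exact lt_irrefl _ hx
    obtain ⟨g', hg', y, hy⟩ := no_line h x w
    have hyw : y ≠ w := by
      rintro rfl
      exact lt_irrefl _ hy
    have hyx : y ≠ x := by
      rintro rfl
      rw [hg'] at hy
      exact lt_irrefl _ hy
    exact Finset.two_lt_card.2 ⟨w, Finset.mem_univ _, x, Finset.mem_univ _, y, Finset.mem_univ _,
      hxw.symm, hyw.symm, hyx.symm⟩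
  have hup : Fintype.card U ≤ 3 := by
    by_contra hcon
    have h1 : 2 < (Finset.univ.erase w).card := by
      rw [Finset.card_erase_of_mem (Finset.mem_univ w), Finset.card_univ]
      omega
    obtain ⟨u0, hu0, u1, hu1, u2, hu2, h01, h02, h12⟩ := Finset.two_lt_card.1 h1
    have hu0 := (Finset.mem_erase.1 hu0).1
    have hu1 := (Finset.mem_erase.1 hu1).1
    have hu2 := (Finset.mem_erase.1 hu2).1
    obtain ⟨l0, hl0, hl0'⟩ := edge_fun h (hw u0 hu0)
    obtain ⟨l1, hl1, hl1'⟩ := edge_fun h (hw u1 hu1)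
    obtain ⟨l2, hl2, hl2'⟩ := edge_fun h (hw u2 hu2)
    have hdep : ¬ LinearIndependent ℝ ![p u0 - p w, p u1 - p w, p u2 - p w] := by
      intro hli
      have := hli.fintype_card_le_finrank
      simp at this
    obtain ⟨α, hα, i, hi⟩ := Fintype.not_linearIndependent_iff.1 hdep
    simp only [Fin.sum_univ_three, Matrix.cons_val_zero, Matrix.cons_val_one,
      Matrix.cons_val_two, Matrix.head_cons, Matrix.tail_cons] at hα
    have e0 := congrArg l0 hα
    have e1 := congrArg l1 hα
    have e2 := congrArg l2 hα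
    simp only [map_add, map_smul, smul_eq_mul, map_zero, hl0, hl1, hl2, mul_zero, zero_add,
      add_zero] at e0 e1 e2
    have a01 := hl0' u1 hu1 h01.symm
    have a02 := hl0' u2 hu2 h02.symm
    have a10 := hl1' u0 hu0 h01
    have a12 := hl1' u2 hu2 h12.symm
    have a20 := hl2' u0 hu0 h02
    have a21 := hl2' u1 hu1 h12
    rcases lt_trichotomy (α 0) 0 with hx | hx | hx
    · have hz : 0 < α 2 := by
        by_contra hc
        nlinarith [mul_pos_of_neg_of_neg hx a10, mul_nonneg_of_nonpos_of_nonpos (not_lt.1 hc) a12.le]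
      have hy : 0 < α 1 := by
        by_contra hc
        nlinarith [mul_pos_of_neg_of_neg hx a20, mul_nonneg_of_nonpos_of_nonpos (not_lt.1 hc) a21.le]
      nlinarith [mul_neg_of_pos_of_neg hy a01, mul_neg_of_pos_of_neg hz a02]
    · rw [hx, zero_mul, zero_add] at e1 e2
      have hz : α 2 = 0 := (mul_eq_zero.1 e1).resolve_right a12.ne
      have hy : α 1 = 0 := (mul_eq_zero.1 e2).resolve_right a21.ne
      fin_cases i
      · exact hi hx
      · exact hi hy
      · exact hi hz
    · have hz : α 2 < 0 := by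
        by_contra hc
        nlinarith [mul_neg_of_pos_of_neg hx a10, mul_nonneg (not_lt.1 hc) (neg_nonneg.2 a12.le)]
      have hy : α 1 < 0 := by
        by_contra hc
        nlinarith [mul_neg_of_pos_of_neg hx a20, mul_nonneg (not_lt.1 hc) (neg_nonneg.2 a21.le)]
      nlinarith [mul_pos_of_neg_of_neg hy a01, mul_pos_of_neg_of_neg hz a02]
  have hcard : Fintype.card U = 3 := by omega
  refine ⟨hcard, ?_⟩
  apply le_antisymm le_top
  intro u v huv
  have huv : u ≠ v := huv
  by_cases huw : u = w
  · subst huw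
    exact hw v huv.symm
  by_cases hvw : v = w
  · subst hvw
    exact (hw u huv).symm
  have hall : ∀ x, x ≠ u → x ≠ v → x = w := by
    intro x hxu hxv
    by_contra hxw
    have h4 : ({u, v, w, x} : Finset U).card ≤ Fintype.card U := Finset.card_le_univ _
    rw [Finset.card_insert_of_notMem, Finset.card_insert_of_notMem, Finset.card_pair, hcard] at h4
    · omega
    · exact fun h => hxw h.symm
    · simp [hvw, hxv.symm]
    · simp [huw, huv, hxu.symm]
  rw [h.2.2.2.2]
  refine ⟨huv, ?_⟩
  obtain ⟨g, hg, x, hx⟩ := no_line h u v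
  have hxv : x ≠ v := by
    rintro rfl
    exact lt_irrefl _ hx
  have hxu : x ≠ u := by
    rintro rfl
    rw [hg] at hx
    exact lt_irrefl _ hx
  have hxw := hall x hxu hxv
  subst hxw
  rw [hull_eq h]
  refine exposed_segment p u v (LinearMap.toContinuousLinearMap g) (-(g (p v))) ?_ ?_ ?_
  · simp [hg]
  · simp
  · intro y hyu hyv
    rw [hall y hyu hyv]
    simp only [LinearMap.coe_toContinuousLinearMap']
    linarith

/-! ### Simplices -/

theorem simplex {U : Type} [Fintype U] (d : ℕ) (hU : Fintype.card U = d + 1) :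
    IsPolytopal d (⊤ : SimpleGraph U) := by
  classical
  let e : U ≃ Option (Fin d) := (Fintype.equivFinOfCardEq hU).trans (finSuccEquiv d)
  have : Nonempty U := ⟨e.symm none⟩
  let q : Option (Fin d) → Fin d → ℝ := fun o => o.elim 0 (fun i => Pi.single i 1)
  have hq : ∀ f : Option (Fin d) → ℝ, ∃ (c0 : ℝ) (c : Fin d → ℝ), ∀ o, af c0 c (q o) = f o := by
    intro f
    refine ⟨f none, fun i => f (some i) - f none, fun o => ?_⟩
    cases o with
    | none => simp [af, q]
    | some i => simp [af, q, Pi.single_apply]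
  have hf : ∀ f : U → ℝ, ∃ (c0 : ℝ) (c : Fin d → ℝ), ∀ u, af c0 c (q (e u)) = f u := by
    intro f
    obtain ⟨c0, c, h⟩ := hq (fun o => f (e.symm o))
    exact ⟨c0, c, fun u => by rw [h]; simp⟩
  apply polytopal_of (⊤ : SimpleGraph U) (fun u => q (e u))
  · intro c0 c h
    have h0 := h (e.symm none)
    simp only [Equiv.apply_symm_apply] at h0
    have h0' : c0 = 0 := by simpa [af, q] using h0
    funext i
    have h1 := h (e.symm (some i))
    simp only [Equiv.apply_symm_apply] at h1
    have h1' : c0 + c i = 0 := by simpa [af, q, Pi.single_apply] using h1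
    simp only [Pi.zero_apply]
    linarith
  · intro u
    obtain ⟨c0, c, h⟩ := hf (fun x => if x = u then 0 else 1)
    refine ⟨c0, c, ?_, fun x hx => ?_⟩
    · rw [h]; simp
    · rw [h]; simp [hx]
  · intro u v _
    obtain ⟨c0, c, h⟩ := hf (fun x => if x = u ∨ x = v then 0 else 1)
    refine ⟨c0, c, ?_, ?_, fun x hx hx' => ?_⟩
    · rw [h]; simp
    · rw [h]; simp
    · rw [h]; simp [hx, hx']
  · intro u v huv h
    exact absurd huv h

theorem p_low : LowStm :=
  ⟨fun H h => low0 H h, fun H h => low1 H h, fun H w hw h => low2 H w hw h,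
    fun d h => simplex d h⟩

end Pool.Agent.W4helper65.JN
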